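import Mathlib

/-!
# One-dimensional anisotropic integrands: atomic and exposed condition
-/

namespace V8H6.EC

open Matrix

variable {n : ℕ}

/-- Euclidean length of a vector. -/
noncomputable def len (v : Fin n → ℝ) : ℝ := Real.sqrt (v ⬝ᵥ v)

/-- The matrix of the orthogonal projection onto the line spanned by `v` (for `v ≠ 0`). -/
noncomputable def proj (v : Fin n → ℝ) : Matrix (Fin n) (Fin n) ℝ :=
  (v ⬝ᵥ v)⁻¹ • vecMulVec v v

/-- A `1`-integrand: a positive function of class `C¹` on the set of the orthogonal projections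
of rank one.  Only the values `F (proj v)`, `v ≠ 0`, matter. -/
structure IsIntegrand (F : Matrix (Fin n) (Fin n) ℝ → ℝ) : Prop where
  pos : ∀ v : Fin n → ℝ, v ≠ 0 → 0 < F (proj v)
  smooth : ContDiffOn ℝ 1 (fun v : Fin n → ℝ => F (proj v)) {v | v ≠ 0}

/-- `B` is the first variation matrix `B_F(T)` at `T = proj v`:
for every `L` the derivative at `0` of `F (π_t) J_t`, where `π_t` is the line spanned by
`(I + t L) v` and `J_t = |(I + t L) v| / |v|`, is the inner product of `B` and `L`. -/
def IsFirstVar (F : Matrix (Fin n) (Fin n) ℝ → ℝ) (v : Fin n → ℝ)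
    (B : Matrix (Fin n) (Fin n) ℝ) : Prop :=
  ∀ L : Matrix (Fin n) (Fin n) ℝ,
    HasDerivAt (fun t : ℝ => F (proj ((1 + t • L) *ᵥ v)) * (len ((1 + t • L) *ᵥ v) / len v))
      ((Bᵀ * L).trace) 0

/-- The Gauss image of `F`. -/
def GaussImage (F : Matrix (Fin n) (Fin n) ℝ → ℝ) : Set (Matrix (Fin n) (Fin n) ℝ) :=
  {A | ∃ v : Fin n → ℝ, v ≠ 0 ∧ ∃ B, IsFirstVar F v B ∧ A = (F (proj v))⁻¹ • B}

/-- The atomic condition in its convex-geometric form (`k = 1`). -/
def AC (F : Matrix (Fin n) (Fin n) ℝ → ℝ) : Prop :=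
  convexHull ℝ (GaussImage F) ∩ {A | A.rank ≤ 1} = GaussImage F ∧
    GaussImage F = (convexHull ℝ (GaussImage F)).extremePoints ℝ

/-- The exposed condition (`k = 1`). -/
def EC (F : Matrix (Fin n) (Fin n) ℝ → ℝ) : Prop :=
  convexHull ℝ (GaussImage F) ∩ {A | A.rank ≤ 1} = GaussImage F ∧
    GaussImage F = (convexHull ℝ (GaussImage F)).exposedPoints ℝ

/-- The positively homogeneous even extension of the integrand to all vectors. -/
noncomputable def Phi (F : Matrix (Fin n) (Fin n) ℝ → ℝ) (v : Fin n → ℝ) : ℝ :=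
  len v * F (proj v)

/-- Strict convexity of the integrand: the triangle inequality for `Phi F` is strict on
linearly independent vectors. -/
def StrictConv (F : Matrix (Fin n) (Fin n) ℝ → ℝ) : Prop :=
  ∀ v w : Fin n → ℝ, LinearIndependent ℝ ![v, w] → Phi F (v + w) < Phi F v + Phi F w

end V8H6.EC
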