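import Mathlib
import Pool.Agent.V8H6.EC.Defs

namespace V8H6.EC

open Matrix

variable {n : ℕ} {F : Matrix (Fin n) (Fin n) ℝ → ℝ}

theorem dot_self_pos {v : Fin n → ℝ} (hv : v ≠ 0) : 0 < v ⬝ᵥ v := by
  have h0 : 0 ≤ v ⬝ᵥ v := by
    simp only [dotProduct]
    exact Finset.sum_nonneg fun i _ => mul_self_nonneg _
  refine lt_of_le_of_ne h0 fun h => hv ?_
  exact dotProduct_self_eq_zero.1 h.symm

theorem len_pos {v : Fin n → ℝ} (hv : v ≠ 0) : 0 < len v := Real.sqrt_pos.2 (dot_self_pos hv)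

theorem len_smul (c : ℝ) (v : Fin n → ℝ) : len (c • v) = |c| * len v := by
  unfold len
  rw [smul_dotProduct, dotProduct_smul, smul_eq_mul, smul_eq_mul, ← mul_assoc,
    Real.sqrt_mul (mul_self_nonneg c), Real.sqrt_mul_self_eq_abs]

theorem proj_smul {c : ℝ} (hc : c ≠ 0) (v : Fin n → ℝ) : proj (c • v) = proj v := by
  unfold proj
  rw [smul_dotProduct, dotProduct_smul, smul_eq_mul, smul_eq_mul, smul_vecMulVec,
    vecMulVec_smul, smul_smul, smul_smul]
  congr 1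
  by_cases h : v ⬝ᵥ v = 0
  · simp [h]
  · field_simp

theorem Phi_smul (c : ℝ) (v : Fin n → ℝ) : Phi F (c • v) = |c| * Phi F v := by
  by_cases hc : c = 0
  · subst hc
    unfold Phi
    rw [len_smul]
    simp
  · unfold Phi
    rw [len_smul, proj_smul hc, mul_assoc]

theorem Phi_neg (v : Fin n → ℝ) : Phi F (-v) = Phi F v := by
  have := Phi_smul (F := F) (-1) v
  simpa using this

theorem Phi_zero : Phi F (0 : Fin n → ℝ) = 0 := by
  have := Phi_smul (F := F) 0 (0 : Fin n → ℝ)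
  simpa using this

theorem Phi_pos (hF : IsIntegrand F) {v : Fin n → ℝ} (hv : v ≠ 0) : 0 < Phi F v :=
  mul_pos (len_pos hv) (hF.pos v hv)

theorem isOpen_ne : IsOpen {v : Fin n → ℝ | v ≠ 0} := isOpen_compl_singleton

theorem contDiff_dot : ContDiff ℝ 1 (fun v : Fin n → ℝ => v ⬝ᵥ v) := by
  simp only [dotProduct]
  fun_prop

theorem Phi_contDiffOn (hF : IsIntegrand F) : ContDiffOn ℝ 1 (Phi F) {v | v ≠ 0} := by
  have h1 : ContDiffOn ℝ 1 (fun v : Fin n → ℝ => len v) {v | v ≠ 0} := by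
    unfold len
    refine ContDiffOn.sqrt contDiff_dot.contDiffOn ?_
    intro v hv
    exact (dot_self_pos hv).ne'
  exact h1.mul hF.smooth

theorem Phi_diffAt (hF : IsIntegrand F) {v : Fin n → ℝ} (hv : v ≠ 0) :
    DifferentiableAt ℝ (Phi F) v :=
  ((Phi_contDiffOn hF).differentiableOn (by norm_num)).differentiableAt
    (isOpen_ne.mem_nhds hv)

/-- Gradient of `Phi F`. -/
noncomputable def grad (F : Matrix (Fin n) (Fin n) ℝ → ℝ) (v : Fin n → ℝ) : Fin n → ℝ :=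
  fun i => fderiv ℝ (Phi F) v (Pi.single i 1)

theorem fderiv_eq (v w : Fin n → ℝ) : fderiv ℝ (Phi F) v w = grad F v ⬝ᵥ w := by
  conv_lhs => rw [show w = ∑ i, w i • (Pi.single i (1:ℝ) : Fin n → ℝ) from by
    ext j
    simp [Finset.sum_apply, Pi.single_apply]]
  rw [map_sum]
  simp only [dotProduct, grad, map_smul, smul_eq_mul]
  exact Finset.sum_congr rfl fun i _ => mul_comm _ _

theorem hasDerivAt_line (hF : IsIntegrand F) {v : Fin n → ℝ} (hv : v ≠ 0) (w : Fin n → ℝ) :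
    HasDerivAt (fun t : ℝ => Phi F (v + t • w)) (grad F v ⬝ᵥ w) 0 := by
  have h1 : HasFDerivAt (Phi F) (fderiv ℝ (Phi F) v) (v + (0:ℝ) • w) := by
    simpa using (Phi_diffAt hF hv).hasFDerivAt
  have h2 : HasDerivAt (fun t : ℝ => v + t • w) w 0 := by
    simpa using ((hasDerivAt_id (0:ℝ)).smul_const w).const_add v
  have h3 := h1.comp_hasDerivAt (0:ℝ) h2
  rw [fderiv_eq] at h3
  exact h3

/-- Euler. -/
theorem euler (hF : IsIntegrand F) {v : Fin n → ℝ} (hv : v ≠ 0) :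
    grad F v ⬝ᵥ v = Phi F v := by
  have h1 := hasDerivAt_line hF hv v
  have h2 : HasDerivAt (fun t : ℝ => (1 + t) * Phi F v) (Phi F v) 0 := by
    simpa using ((hasDerivAt_id (0:ℝ)).const_add 1).mul_const (Phi F v)
  have h3 : (fun t : ℝ => Phi F (v + t • v)) =ᶠ[nhds 0] fun t : ℝ => (1 + t) * Phi F v := by
    have : Set.Ioi (-1:ℝ) ∈ nhds (0:ℝ) := Ioi_mem_nhds (by norm_num)
    filter_upwards [this] with t ht
    have e : v + t • v = (1 + t) • v := by rw [add_smul, one_smul]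
    have ht' : (0:ℝ) ≤ 1 + t := by
      have : -1 < t := ht
      linarith
    rw [e, Phi_smul, abs_of_nonneg ht']
  exact (h1.congr_of_eventuallyEq h3.symm).unique h2

theorem grad_ne (hF : IsIntegrand F) {v : Fin n → ℝ} (hv : v ≠ 0) : grad F v ≠ 0 := by
  intro h
  have := euler hF hv
  rw [h, zero_dotProduct] at this
  exact (Phi_pos hF hv).ne this

theorem grad_smul (hF : IsIntegrand F) {c : ℝ} (hc : c ≠ 0) {v : Fin n → ℝ} (hv : v ≠ 0) :
    c • grad F (c • v) = |c| • grad F v := by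
  have hcv : c • v ≠ 0 := smul_ne_zero hc hv
  have key : ∀ w : Fin n → ℝ, (c • grad F (c • v)) ⬝ᵥ w = (|c| • grad F v) ⬝ᵥ w := by
    intro w
    have h1 := hasDerivAt_line hF hcv (c • w)
    have h2 := (hasDerivAt_line hF hv w).const_mul |c|
    have e : (fun t : ℝ => Phi F (c • v + t • c • w)) = fun t : ℝ => |c| * Phi F (v + t • w) := by
      funext t
      rw [← Phi_smul, smul_add, smul_comm t c w]
    rw [e] at h1
    have h3 := h1.unique h2
    rw [dotProduct_smul] at h3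
    rw [smul_dotProduct, smul_dotProduct, smul_eq_mul, smul_eq_mul]
    simpa using h3
  ext i
  have := key (Pi.single i 1)
  simpa using this

/-- The point of the Gauss image. -/
noncomputable def Av (F : Matrix (Fin n) (Fin n) ℝ → ℝ) (v : Fin n → ℝ) :
    Matrix (Fin n) (Fin n) ℝ := (Phi F v)⁻¹ • vecMulVec (grad F v) v

theorem Av_smul (hF : IsIntegrand F) {c : ℝ} (hc : c ≠ 0) {v : Fin n → ℝ} (hv : v ≠ 0) :
    Av F (c • v) = Av F v := by
  unfold Av
  have hP := (Phi_pos hF hv).ne'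
  have hcc : |c| ≠ 0 := abs_ne_zero.2 hc
  rw [vecMulVec_smul, ← smul_vecMulVec, grad_smul hF hc hv, smul_vecMulVec, Phi_smul, smul_smul]
  congr 1
  field_simp

theorem trace_mul_vec (g v : Fin n → ℝ) (L : Matrix (Fin n) (Fin n) ℝ) :
    ((vecMulVec g v)ᵀ * L).trace = g ⬝ᵥ (L *ᵥ v) := by
  rw [transpose_vecMulVec, vecMulVec_mul, trace_vecMulVec, dotProduct_comm, dotProduct_mulVec]

theorem isFirstVar_iff (hF : IsIntegrand F) {v : Fin n → ℝ} (hv : v ≠ 0)
    (B : Matrix (Fin n) (Fin n) ℝ) :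
    IsFirstVar F v B ↔ B = (len v)⁻¹ • vecMulVec (grad F v) v := by
  have hder : ∀ L : Matrix (Fin n) (Fin n) ℝ,
      HasDerivAt (fun t : ℝ => F (proj ((1 + t • L) *ᵥ v)) * (len ((1 + t • L) *ᵥ v) / len v))
      ((len v)⁻¹ * (grad F v ⬝ᵥ (L *ᵥ v))) 0 := by
    intro L
    have h1 := (hasDerivAt_line hF hv (L *ᵥ v)).const_mul (len v)⁻¹
    have e : (fun t : ℝ => F (proj ((1 + t • L) *ᵥ v)) * (len ((1 + t • L) *ᵥ v) / len v)) =
        fun t : ℝ => (len v)⁻¹ * Phi F (v + t • L *ᵥ v) := by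
      funext t
      have e1 : (1 + t • L) *ᵥ v = v + t • L *ᵥ v := by
        rw [add_mulVec, one_mulVec, smul_mulVec]
      rw [e1]
      unfold Phi
      ring
    rw [e]
    exact h1
  constructor
  · intro h
    have h2 : ∀ L : Matrix (Fin n) (Fin n) ℝ,
        (Bᵀ * L).trace = (((len v)⁻¹ • vecMulVec (grad F v) v)ᵀ * L).trace := by
      intro L
      rw [(h L).unique (hder L), transpose_smul, smul_mul, trace_smul, trace_mul_vec, smul_eq_mul]
    ext i j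
    have h3 := h2 (single i j 1)
    rw [trace_mul_single, trace_mul_single] at h3
    simpa using h3
  · intro h L
    rw [h, transpose_smul, smul_mul, trace_smul, trace_mul_vec, smul_eq_mul]
    exact hder L

theorem gaussImage_eq (hF : IsIntegrand F) :
    GaussImage F = {A | ∃ v : Fin n → ℝ, v ≠ 0 ∧ A = Av F v} := by
  ext A
  constructor
  · rintro ⟨v, hv, B, hB, rfl⟩
    refine ⟨v, hv, ?_⟩
    rw [(isFirstVar_iff hF hv B).1 hB, smul_smul]
    unfold Av Phi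
    rw [mul_inv, mul_comm]
  · rintro ⟨v, hv, rfl⟩
    refine ⟨v, hv, _, (isFirstVar_iff hF hv _).2 rfl, ?_⟩
    rw [smul_smul]
    unfold Av Phi
    rw [mul_inv, mul_comm (len v)⁻¹]

theorem Av_mem (hF : IsIntegrand F) {v : Fin n → ℝ} (hv : v ≠ 0) : Av F v ∈ GaussImage F := by
  rw [gaussImage_eq hF]
  exact ⟨v, hv, rfl⟩

theorem trace_Av (hF : IsIntegrand F) {v : Fin n → ℝ} (hv : v ≠ 0) : (Av F v).trace = 1 := by
  unfold Av
  rw [trace_smul, trace_vecMulVec, euler hF hv, smul_eq_mul]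
  exact inv_mul_cancel₀ (Phi_pos hF hv).ne'

theorem rank_Av (v : Fin n → ℝ) : (Av F v).rank ≤ 1 := by
  unfold Av
  rw [← smul_vecMulVec]
  exact rank_vecMulVec_le _ _

/-- First-order condition. -/
theorem first_order (hF : IsIntegrand F) {a : Fin n → ℝ} {M : ℝ}
    (h : ∀ x, a ⬝ᵥ x ≤ M * Phi F x) {y : Fin n → ℝ} (hy : y ≠ 0) (hy' : a ⬝ᵥ y = M * Phi F y) :
    a = M • grad F y := by
  have key : ∀ w : Fin n → ℝ, a ⬝ᵥ w = (M • grad F y) ⬝ᵥ w := by
    intro w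
    have h1 := (hasDerivAt_line hF hy w).const_mul M
    have h2 : HasDerivAt (fun t : ℝ => a ⬝ᵥ (y + t • w)) (a ⬝ᵥ w) 0 := by
      have e : (fun t : ℝ => a ⬝ᵥ (y + t • w)) = fun t : ℝ => a ⬝ᵥ y + t * (a ⬝ᵥ w) := by
        funext t
        rw [dotProduct_add, dotProduct_smul, smul_eq_mul]
      rw [e]
      simpa using ((hasDerivAt_id (0:ℝ)).mul_const (a ⬝ᵥ w)).const_add (a ⬝ᵥ y)
    have h3 := h1.sub h2
    have h4 : IsLocalMin (fun t : ℝ => M * Phi F (y + t • w) - a ⬝ᵥ (y + t • w)) 0 := by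
      refine Filter.Eventually.of_forall fun t => ?_
      have h5 := h (y + t • w)
      have e0 : y + (0:ℝ) • w = y := by simp
      show M * Phi F (y + (0:ℝ) • w) - a ⬝ᵥ (y + (0:ℝ) • w) ≤
        M * Phi F (y + t • w) - a ⬝ᵥ (y + t • w)
      rw [e0]
      linarith
    have h6 := h4.hasDerivAt_eq_zero h3
    rw [smul_dotProduct, smul_eq_mul]
    linarith
  ext i
  have := key (Pi.single i 1)
  simpa using this

/-- The maximum lemma. -/
theorem exists_max (hF : IsIntegrand F) {a : Fin n → ℝ} (ha : a ≠ 0) :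
    ∃ y : Fin n → ℝ, y ≠ 0 ∧ ∃ M : ℝ, 0 < M ∧ (∀ x, a ⬝ᵥ x ≤ M * Phi F x) ∧
      a ⬝ᵥ y = M * Phi F y := by
  have hcont : ContinuousOn (fun x : Fin n → ℝ => a ⬝ᵥ x / Phi F x)
      (Metric.sphere (0 : Fin n → ℝ) 1) := by
    have hsub : Metric.sphere (0 : Fin n → ℝ) 1 ⊆ {v | v ≠ 0} := by
      intro x hx h0
      rw [h0] at hx
      simp at hx
    refine ContinuousOn.div ?_ ((Phi_contDiffOn hF).continuousOn.mono hsub) ?_
    · refine Continuous.continuousOn ?_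
      show Continuous (fun x : Fin n → ℝ => ∑ i, a i * x i)
      fun_prop
    · intro x hx
      exact (Phi_pos hF (hsub hx)).ne'
  have hna : ‖a‖ ≠ 0 := norm_ne_zero_iff.2 ha
  have hmem : ∀ x : Fin n → ℝ, x ≠ 0 → ‖x‖⁻¹ • x ∈ Metric.sphere (0 : Fin n → ℝ) 1 := by
    intro x hx
    rw [mem_sphere_zero_iff_norm, norm_smul, norm_inv, norm_norm]
    exact inv_mul_cancel₀ (norm_ne_zero_iff.2 hx)
  have hval : ∀ x : Fin n → ℝ, x ≠ 0 →
      a ⬝ᵥ (‖x‖⁻¹ • x) / Phi F (‖x‖⁻¹ • x) = a ⬝ᵥ x / Phi F x := by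
    intro x hx
    have hP := (Phi_pos hF hx).ne'
    have hx' : ‖x‖ ≠ 0 := norm_ne_zero_iff.2 hx
    rw [Phi_smul, dotProduct_smul, smul_eq_mul, abs_of_nonneg (inv_nonneg.2 (norm_nonneg x))]
    field_simp
  obtain ⟨y, hy, hmax⟩ := (isCompact_sphere (0 : Fin n → ℝ) 1).exists_isMaxOn
    ⟨_, hmem a ha⟩ hcont
  have hy0 : y ≠ 0 := by
    intro h0
    rw [h0] at hy
    simp at hy
  have hbd : ∀ x : Fin n → ℝ, x ≠ 0 → a ⬝ᵥ x / Phi F x ≤ a ⬝ᵥ y / Phi F y := by
    intro x hx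
    have h1 : a ⬝ᵥ (‖x‖⁻¹ • x) / Phi F (‖x‖⁻¹ • x) ≤ a ⬝ᵥ y / Phi F y := hmax (hmem x hx)
    rw [hval x hx] at h1
    exact h1
  have hM : 0 < a ⬝ᵥ y / Phi F y :=
    lt_of_lt_of_le (div_pos (dot_self_pos ha) (Phi_pos hF ha)) (hbd a ha)
  refine ⟨y, hy0, a ⬝ᵥ y / Phi F y, hM, ?_, ?_⟩
  · intro x
    by_cases hx : x = 0
    · rw [hx, Phi_zero]
      simp
    · have h1 := hbd x hx
      rwa [div_le_iff₀ (Phi_pos hF hx)] at h1
  · rw [div_mul_cancel₀ _ (Phi_pos hF hy0).ne']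

end V8H6.EC
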