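import Mathlib
import Pool.Agent.V8H6.EC.Basic

namespace V8H6.EC

open Matrix

variable {n : ℕ} {F : Matrix (Fin n) (Fin n) ℝ → ℝ}

/-- Gradient form of strict convexity. -/
def SCg (F : Matrix (Fin n) (Fin n) ℝ → ℝ) : Prop :=
  ∀ v w : Fin n → ℝ, LinearIndependent ℝ ![v, w] → grad F v ⬝ᵥ w < Phi F w

theorem li_ne_left {v w : Fin n → ℝ} (h : LinearIndependent ℝ ![v, w]) : v ≠ 0 := by
  have := h.ne_zero 0
  simpa using this

theorem li_ne_right {v w : Fin n → ℝ} (h : LinearIndependent ℝ ![v, w]) : w ≠ 0 := by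
  have := h.ne_zero 1
  simpa using this

/-- Independence or proportionality. -/
theorem li_or {v : Fin n → ℝ} (hv : v ≠ 0) {w : Fin n → ℝ} (hw : w ≠ 0) :
    LinearIndependent ℝ ![v, w] ∨ ∃ c : ℝ, c ≠ 0 ∧ w = c • v := by
  by_cases h : LinearIndependent ℝ ![v, w]
  · exact Or.inl h
  · right
    rw [LinearIndependent.pair_iff' hv] at h
    push Not at h
    obtain ⟨c, hc⟩ := h
    refine ⟨c, ?_, hc.symm⟩
    rintro rfl
    rw [zero_smul] at hc
    exact hw hc.symm

theorem li_smul {v w : Fin n → ℝ} (h : LinearIndependent ℝ ![v, w]) {t : ℝ} (ht : t ≠ 0) :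
    LinearIndependent ℝ ![v, t • w] := by
  rw [LinearIndependent.pair_iff] at h ⊢
  intro a b hab
  rw [smul_smul] at hab
  obtain ⟨h1, h2⟩ := h a (b * t) hab
  exact ⟨h1, (mul_eq_zero.1 h2).resolve_right ht⟩

theorem li_neg {v w : Fin n → ℝ} (h : LinearIndependent ℝ ![v, w]) :
    LinearIndependent ℝ ![v, -w] := by
  have := li_smul h (t := -1) (by norm_num)
  simpa using this

theorem li_swap {v w : Fin n → ℝ} (h : LinearIndependent ℝ ![v, w]) :
    LinearIndependent ℝ ![w, v] := by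
  rw [LinearIndependent.pair_iff] at h ⊢
  intro a b hab
  rw [add_comm] at hab
  obtain ⟨h1, h2⟩ := h b a hab
  exact ⟨h2, h1⟩

theorem li_add {v w : Fin n → ℝ} (h : LinearIndependent ℝ ![v, w]) :
    LinearIndependent ℝ ![v, v + w] := by
  rw [LinearIndependent.pair_iff] at h ⊢
  intro a b hab
  have : (a + b) • v + b • w = 0 := by
    rw [← hab, smul_add, add_smul, add_assoc]
  obtain ⟨h1, h2⟩ := h _ _ this
  refine ⟨by linarith, h2⟩

theorem SCg_of_SC (hF : IsIntegrand F) (h : StrictConv F) : SCg F := by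
  have hle : ∀ v w : Fin n → ℝ, LinearIndependent ℝ ![v, w] → grad F v ⬝ᵥ w ≤ Phi F w := by
    intro v w hvw
    have hv := li_ne_left hvw
    have h1 := (hasDerivAt_line hF hv w).tendsto_slope_zero_right
    refine le_of_tendsto h1 ?_
    filter_upwards [self_mem_nhdsWithin] with t ht
    have ht' : (0:ℝ) < t := ht
    have h2 := h v (t • w) (li_smul hvw ht'.ne')
    rw [Phi_smul, abs_of_pos ht'] at h2
    simp only [zero_add, zero_smul, add_zero, smul_eq_mul]
    rw [inv_mul_le_iff₀ ht']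
    linarith
  intro v w hvw
  refine lt_of_le_of_ne (hle v w hvw) fun heq => ?_
  have hv := li_ne_left hvw
  have h1 := hle v (v + w) (li_add hvw)
  have h2 := h v w hvw
  rw [dotProduct_add, euler hF hv, heq] at h1
  linarith

theorem SC_of_SCg (hF : IsIntegrand F) (h : SCg F) : StrictConv F := by
  intro v w hvw
  have h1 : LinearIndependent ℝ ![v + w, v] := li_swap (li_add hvw)
  have h2 : LinearIndependent ℝ ![v + w, w] := by
    have := li_swap (li_add (li_swap hvw))
    rwa [add_comm w v] at this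
  have hne := li_ne_left h1
  have h3 := h _ _ h1
  have h4 := h _ _ h2
  have h5 := euler hF hne
  rw [dotProduct_add] at h5
  linarith

/-- The linear functional `A ↦ trace (A_v A)`. -/
noncomputable def ell (F : Matrix (Fin n) (Fin n) ℝ → ℝ) (v : Fin n → ℝ) :
    Matrix (Fin n) (Fin n) ℝ →ₗ[ℝ] ℝ where
  toFun A := (Av F v * A).trace
  map_add' A B := by rw [mul_add, trace_add]
  map_smul' c A := by rw [Matrix.mul_smul, trace_smul]; rfl

theorem ell_apply (v : Fin n → ℝ) (A : Matrix (Fin n) (Fin n) ℝ) :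
    ell F v A = (Av F v * A).trace := rfl

theorem ell_vec (v a c : Fin n → ℝ) :
    ell F v (vecMulVec a c) = (Phi F v)⁻¹ * ((v ⬝ᵥ a) * (grad F v ⬝ᵥ c)) := by
  rw [ell_apply, Av, smul_mul, trace_smul, smul_eq_mul, vecMulVec_mul_vecMulVec,
    vecMulVec_smul, trace_smul, trace_vecMulVec, smul_eq_mul]

theorem ell_Av (v w : Fin n → ℝ) :
    ell F v (Av F w) = (Phi F v)⁻¹ * (Phi F w)⁻¹ * ((grad F w ⬝ᵥ v) * (grad F v ⬝ᵥ w)) := by
  conv_lhs => rw [Av]
  rw [map_smul, ell_vec, smul_eq_mul, dotProduct_comm v]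
  ring

theorem ell_Av_self (hF : IsIntegrand F) {v : Fin n → ℝ} (hv : v ≠ 0) : ell F v (Av F v) = 1 := by
  rw [ell_Av, euler hF hv]
  have := (Phi_pos hF hv).ne'
  field_simp

theorem abs_lt_of_SCg (h : SCg F) {v w : Fin n → ℝ} (hvw : LinearIndependent ℝ ![v, w]) :
    |grad F v ⬝ᵥ w| < Phi F w := by
  rw [abs_lt]
  have h1 := h v w hvw
  have h2 := h v (-w) (li_neg hvw)
  rw [Phi_neg, dotProduct_neg] at h2
  exact ⟨by linarith, h1⟩

theorem ell_lt (hF : IsIntegrand F) (h : SCg F) {v w : Fin n → ℝ}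
    (hvw : LinearIndependent ℝ ![v, w]) : ell F v (Av F w) < 1 := by
  have h1 := abs_lt_of_SCg h hvw
  have h2 := abs_lt_of_SCg h (li_swap hvw)
  have pv := Phi_pos hF (li_ne_left hvw)
  have pw := Phi_pos hF (li_ne_right hvw)
  rw [ell_Av]
  have h3 : (grad F w ⬝ᵥ v) * (grad F v ⬝ᵥ w) < Phi F v * Phi F w := by
    calc (grad F w ⬝ᵥ v) * (grad F v ⬝ᵥ w) ≤ |(grad F w ⬝ᵥ v) * (grad F v ⬝ᵥ w)| := le_abs_self _
      _ = |grad F w ⬝ᵥ v| * |grad F v ⬝ᵥ w| := abs_mul _ _
      _ < Phi F v * Phi F w := mul_lt_mul'' h2 h1 (abs_nonneg _) (abs_nonneg _)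
  rw [← mul_inv, inv_mul_lt_iff₀ (mul_pos pv pw), mul_one]
  exact h3

theorem mem_K (hF : IsIntegrand F) (h : SCg F) {v : Fin n → ℝ} (hv : v ≠ 0)
    {y : Matrix (Fin n) (Fin n) ℝ} (hy : y ∈ convexHull ℝ (GaussImage F)) :
    ell F v y < 1 ∨ y = Av F v := by
  have hsub : GaussImage F ⊆ {y | ell F v y < 1 ∨ y = Av F v} := by
    rw [gaussImage_eq hF]
    rintro A ⟨w, hw, rfl⟩
    rcases li_or hv hw with hli | ⟨c, hc, rfl⟩
    · exact Or.inl (ell_lt hF h hli)
    · exact Or.inr (Av_smul hF hc hv)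
  have hconv : Convex ℝ {y | ell F v y < 1 ∨ y = Av F v} := by
    rw [convex_iff_forall_pos]
    intro y1 h1 y2 h2 a b ha hb hab
    have h1' : ell F v y1 < 1 ∨ y1 = Av F v := h1
    have h2' : ell F v y2 < 1 ∨ y2 = Av F v := h2
    show ell F v (a • y1 + b • y2) < 1 ∨ a • y1 + b • y2 = Av F v
    rcases h1' with h1' | h1'
    · left
      have h3 : ell F v y2 ≤ 1 := by
        rcases h2' with h2' | h2'
        · exact h2'.le
        · rw [h2', ell_Av_self hF hv]
      rw [map_add, map_smul, map_smul, smul_eq_mul, smul_eq_mul]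
      nlinarith
    · rcases h2' with h2' | h2'
      · left
        have h3 : ell F v y1 = 1 := by rw [h1', ell_Av_self hF hv]
        rw [map_add, map_smul, map_smul, smul_eq_mul, smul_eq_mul, h3]
        nlinarith
      · right
        rw [h1', h2', ← add_smul, hab, one_smul]
  exact convexHull_min hsub hconv hy

theorem trace_hull (hF : IsIntegrand F) {y : Matrix (Fin n) (Fin n) ℝ}
    (hy : y ∈ convexHull ℝ (GaussImage F)) : y.trace = 1 := by
  have hsub : GaussImage F ⊆ {y | y.trace = 1} := by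
    rw [gaussImage_eq hF]
    rintro A ⟨w, hw, rfl⟩
    exact trace_Av hF hw
  have hconv : Convex ℝ {y : Matrix (Fin n) (Fin n) ℝ | y.trace = 1} := by
    intro y1 h1 y2 h2 a b ha hb hab
    have h1' : y1.trace = 1 := h1
    have h2' : y2.trace = 1 := h2
    show (a • y1 + b • y2).trace = 1
    rw [trace_add, trace_smul, trace_smul, h1', h2', smul_eq_mul, smul_eq_mul]
    linarith
  exact convexHull_min hsub hconv hy

theorem exists_vecMulVec {y : Matrix (Fin n) (Fin n) ℝ} (hy : y.rank ≤ 1) :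
    ∃ a c : Fin n → ℝ, y = vecMulVec a c := by
  rw [Matrix.rank_eq_finrank_span_cols] at hy
  obtain ⟨⟨a, ha⟩, h⟩ := (finrank_le_one_iff).1 hy
  have : ∀ j, ∃ r : ℝ, r • a = y.col j := by
    intro j
    obtain ⟨r, hr⟩ := h ⟨y.col j, Submodule.subset_span ⟨j, rfl⟩⟩
    refine ⟨r, ?_⟩
    have := congrArg Subtype.val hr
    simpa using this
  choose r hr using this
  refine ⟨a, r, ?_⟩
  ext i j
  rw [vecMulVec_apply]
  have := congrFun (hr j) i
  simp only [Pi.smul_apply, smul_eq_mul, col_apply] at this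
  rw [← this, mul_comm]

theorem rank_one_in_hull (hF : IsIntegrand F) (h : SCg F) {y : Matrix (Fin n) (Fin n) ℝ}
    (hy : y ∈ convexHull ℝ (GaussImage F)) (hr : y.rank ≤ 1) : y ∈ GaussImage F := by
  obtain ⟨a, c, rfl⟩ := exists_vecMulVec hr
  have ht := trace_hull hF hy
  rw [trace_vecMulVec] at ht
  have ha : a ≠ 0 := by
    rintro rfl
    rw [zero_dotProduct] at ht
    exact zero_ne_one ht
  obtain ⟨v, hv, M, hM, hmax, hval⟩ := exists_max hF ha
  have hfo := first_order hF hmax hv hval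
  have h1 : ell F v (vecMulVec a c) = 1 := by
    have e1 : v ⬝ᵥ a = M * Phi F v := by rw [dotProduct_comm, hval]
    have e2 : M * (grad F v ⬝ᵥ c) = 1 := by
      rw [← ht, ← smul_eq_mul, ← smul_dotProduct, ← hfo]
    have hP := (Phi_pos hF hv).ne'
    rw [ell_vec, e1]
    have : (Phi F v)⁻¹ * (M * Phi F v * (grad F v ⬝ᵥ c)) =
        ((Phi F v)⁻¹ * Phi F v) * (M * (grad F v ⬝ᵥ c)) := by ring
    rw [this, e2, inv_mul_cancel₀ hP, one_mul]
  rcases mem_K hF h hv hy with h2 | h2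
  · rw [h1] at h2
    exact absurd h2 (lt_irrefl _)
  · rw [h2]
    exact Av_mem hF hv

theorem hull_inter (hF : IsIntegrand F) (h : SCg F) :
    convexHull ℝ (GaussImage F) ∩ {A | A.rank ≤ 1} = GaussImage F := by
  apply Set.Subset.antisymm
  · rintro y ⟨hy, hr⟩
    exact rank_one_in_hull hF h hy hr
  · intro y hy
    refine ⟨subset_convexHull ℝ _ hy, ?_⟩
    rw [gaussImage_eq hF] at hy
    obtain ⟨v, hv, rfl⟩ := hy
    exact rank_Av v

theorem EC_of_SCg (hF : IsIntegrand F) (h : SCg F) : EC F := by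
  refine ⟨hull_inter hF h, ?_⟩
  apply Set.Subset.antisymm
  · intro A hA
    have hA' := hA
    rw [gaussImage_eq hF] at hA'
    obtain ⟨v, hv, rfl⟩ := hA'
    refine ⟨subset_convexHull ℝ _ hA, LinearMap.toContinuousLinearMap (ell F v), ?_⟩
    intro y hy
    simp only [LinearMap.coe_toContinuousLinearMap']
    rw [ell_Av_self hF hv]
    rcases mem_K hF h hv hy with h1 | h1
    · exact ⟨h1.le, fun h2 => absurd h1 (not_lt.2 h2)⟩
    · refine ⟨?_, fun _ => h1⟩
      rw [h1, ell_Av_self hF hv]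
  · exact exposedPoints_subset_extremePoints.trans extremePoints_convexHull_subset

theorem AC_of_EC (h : EC F) : AC F := by
  refine ⟨h.1, ?_⟩
  apply Set.Subset.antisymm
  · conv_lhs => rw [h.2]
    exact exposedPoints_subset_extremePoints
  · exact extremePoints_convexHull_subset

/-- Gauss images with proportional gradients. -/
theorem AC_inj (hF : IsIntegrand F) (h : AC F) {v w : Fin n → ℝ} (hv : v ≠ 0) (hw : w ≠ 0)
    {M : ℝ} (hM : M ≠ 0) (hg : grad F v = M • grad F w) : ∃ c : ℝ, c ≠ 0 ∧ w = c • v := by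
  have hAv : Av F v = vecMulVec (grad F w) (((Phi F v)⁻¹ * M) • v) := by
    rw [Av, hg, smul_vecMulVec, vecMulVec_smul, smul_smul]
  have hAw : Av F w = vecMulVec (grad F w) ((Phi F w)⁻¹ • w) := by
    rw [Av, vecMulVec_smul]
  have hPv := (Phi_pos hF hv).ne'
  have hPw := (Phi_pos hF hw).ne'
  set y := (1/2 : ℝ) • Av F v + (1/2 : ℝ) • Av F w with hy
  have hyr : y.rank ≤ 1 := by
    rw [hy, hAv, hAw, ← vecMulVec_smul, ← vecMulVec_smul, ← vecMulVec_add]
    exact rank_vecMulVec_le _ _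
  have hAvm := subset_convexHull ℝ _ (Av_mem hF hv)
  have hAwm := subset_convexHull ℝ _ (Av_mem hF hw)
  have hyh : y ∈ convexHull ℝ (GaussImage F) :=
    convex_convexHull ℝ _ hAvm hAwm (by norm_num) (by norm_num) (by norm_num)
  have hyG : y ∈ GaussImage F := by
    rw [← h.1]
    exact ⟨hyh, hyr⟩
  rw [h.2] at hyG
  have hseg : y ∈ openSegment ℝ (Av F v) (Av F w) :=
    ⟨1/2, 1/2, by norm_num, by norm_num, by norm_num, rfl⟩
  have hext := (mem_extremePoints.1 hyG).2 _ hAvm _ hAwm hseg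
  have heq : Av F v = Av F w := hext.1.trans hext.2.symm
  rw [hAv, hAw] at heq
  obtain ⟨i, hi⟩ : ∃ i, grad F w i ≠ 0 := by
    by_contra hcon
    push Not at hcon
    exact grad_ne hF hw (funext hcon)
  have h3 : ((Phi F v)⁻¹ * M) • v = (Phi F w)⁻¹ • w := by
    funext j
    have := congrFun (congrFun heq i) j
    rw [vecMulVec_apply, vecMulVec_apply] at this
    exact mul_left_cancel₀ hi this
  refine ⟨Phi F w * ((Phi F v)⁻¹ * M), mul_ne_zero hPw (mul_ne_zero (inv_ne_zero hPv) hM), ?_⟩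
  rw [← smul_smul, h3, smul_smul, mul_inv_cancel₀ hPw, one_smul]

theorem SCg_of_AC (hF : IsIntegrand F) (h : AC F) : SCg F := by
  intro v w hvw
  have hv := li_ne_left hvw
  have hw := li_ne_right hvw
  obtain ⟨y, hy, M, hM, hmax, hval⟩ := exists_max hF (grad_ne hF hv)
  have hfo := first_order hF hmax hy hval
  obtain ⟨c, hc, rfl⟩ := AC_inj hF h hv hy hM.ne' hfo
  have hPv := Phi_pos hF hv
  have hM1 : M = 1 := by
    rw [dotProduct_smul, euler hF hv, Phi_smul, smul_eq_mul] at hval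
    have h1 : c = M * |c| := by
      have : c * Phi F v = (M * |c|) * Phi F v := by rw [hval]; ring
      exact mul_right_cancel₀ hPv.ne' this
    have hc' : 0 < |c| := abs_pos.2 hc
    have hcpos : 0 < c := by
      rw [h1]
      exact mul_pos hM hc'
    rw [abs_of_pos hcpos] at h1
    have : M * c = 1 * c := by linarith
    exact mul_right_cancel₀ hc this
  subst hM1
  have hle := hmax w
  rw [one_mul] at hle
  refine lt_of_le_of_ne hle fun heq => ?_
  have hfo2 := first_order hF hmax hw (by rw [one_mul, heq])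
  obtain ⟨d, hd, hdw⟩ := AC_inj hF h hv hw one_ne_zero hfo2
  rw [LinearIndependent.pair_iff' hv] at hvw
  exact hvw d hdw.symm

theorem main (hF : IsIntegrand F) : (AC F ↔ EC F) ∧ (AC F ↔ StrictConv F) := by
  refine ⟨⟨fun h => EC_of_SCg hF (SCg_of_AC hF h), AC_of_EC⟩,
    ⟨fun h => SC_of_SCg hF (SCg_of_AC hF h), fun h => AC_of_EC (EC_of_SCg hF (SCg_of_SC hF h))⟩⟩

end V8H6.EC
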